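import Pool.Agent.helper12.DD.Spec2

/-! Module `TIR` of project dw (MP_baa4d7_al): irreducible characters of finite products. -/

set_option autoImplicit false

open Pool.Agent.helper49.Blk

namespace Pool.Agent.DD

/-- the statement for one index type -/
def TIR_P (T : Type) [Fintype T] : Prop :=
  ∀ (H : T → Type) [∀ t, Group (H t)] [∀ t, Finite (H t)]
    (ψ : (∀ t, H t) → ℂ), ψ ∈ Irr (∀ t, H t) ↔
      ∃ χ : ∀ t, H t → ℂ, (∀ t, χ t ∈ Irr (H t)) ∧ ψ = fun x => ∏ t, χ t (x t)

theorem TIR_equiv (S T : Type) [Fintype S] [Fintype T] (e : S ≃ T) (h : TIR_P S) : TIR_P T := by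
  intro H _ _ ψ
  let E' : (∀ t, H t) ≃* (∀ s, H (e s)) :=
    MulEquiv.mk' (Equiv.piCongrLeft H e).symm (fun x y => rfl)
  have hE' : ∀ (x : ∀ t, H t) (s : S), E' x s = x (e s) := fun x s => rfl
  rw [TRI (∀ s, H (e s)) (∀ t, H t) E'.symm ψ, h (fun s => H (e s))]
  constructor
  · rintro ⟨χ', h1, h2⟩
    refine ⟨Equiv.piCongrLeft (fun t => H t → ℂ) e χ', ?_, ?_⟩
    · intro t
      obtain ⟨s, rfl⟩ := e.surjective t
      rw [Equiv.piCongrLeft_apply_apply]
      exact h1 s
    · funext x
      have h3 := congrFun h2 (E' x)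
      rw [MulEquiv.symm_apply_apply] at h3
      rw [h3, ← Equiv.prod_comp e]
      refine Finset.prod_congr rfl fun s _ => ?_
      rw [Equiv.piCongrLeft_apply_apply, hE']
  · rintro ⟨χ, h1, h2⟩
    refine ⟨fun s => χ (e s), fun s => h1 (e s), ?_⟩
    funext a
    rw [h2]
    show ∏ t, χ t ((E'.symm a) t) = ∏ s, χ (e s) (a s)
    rw [← Equiv.prod_comp e]
    refine Finset.prod_congr rfl fun s _ => ?_
    have h3 : (E'.symm a) (e s) = a s :=
      (hE' (E'.symm a) s).symm.trans (congrFun (MulEquiv.apply_symm_apply E' a) s)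
    rw [h3]

theorem TIR_option (T : Type) [Fintype T] (h : TIR_P T) : TIR_P (Option T) := by
  intro H _ _ ψ
  let E' : (∀ o, H o) ≃* (H none × ∀ t, H (some t)) :=
    MulEquiv.mk' Equiv.piOptionEquivProd (fun x y => rfl)
  have hE' : ∀ (x : ∀ o, H o), E' x = (x none, fun t => x (some t)) := fun x => rfl
  rw [TRI (H none × ∀ t, H (some t)) (∀ o, H o) E'.symm ψ, all_IRG]
  constructor
  · rintro ⟨α, hα, β, hβ, h2⟩
    obtain ⟨χ', h3, rfl⟩ := (h (fun t => H (some t)) β).1 hβ
    refine ⟨fun o => Option.rec (motive := fun o => H o → ℂ) α χ' o, ?_, ?_⟩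
    · rintro (_ | t)
      · exact hα
      · exact h3 t
    · funext x
      have h4 := congrFun h2 (E' x)
      rw [MulEquiv.symm_apply_apply] at h4
      rw [h4, Fintype.prod_option, hE']
      rfl
  · rintro ⟨χ, h1, h2⟩
    refine ⟨χ none, h1 none, fun x => ∏ t, χ (some t) (x t),
      (h (fun t => H (some t)) _).2 ⟨fun t => χ (some t), fun t => h1 (some t), rfl⟩, ?_⟩
    funext a
    have h3 : E' (E'.symm a) = a := MulEquiv.apply_symm_apply E' a
    rw [hE'] at h3
    have h4 : (E'.symm a) none = a.1 := congrArg Prod.fst h3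
    have h5 : ∀ t, (E'.symm a) (some t) = a.2 t := fun t => congrFun (congrArg Prod.snd h3) t
    rw [h2]
    show ∏ o, χ o ((E'.symm a) o) = χ none a.1 * ∏ t, χ (some t) (a.2 t)
    rw [Fintype.prod_option, h4]
    exact congrArg _ (Finset.prod_congr rfl fun t _ => by rw [h5])

theorem TIR_triv (G : Type) [Group G] [Finite G] [Subsingleton G] (ψ : G → ℂ) :
    ψ ∈ Irr G ↔ ψ = fun _ => 1 := by
  classical
  have := Fintype.ofFinite G
  have hc : Nat.card G = 1 := Nat.card_of_subsingleton (1 : G)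
  have hs : ∀ f : G → ℂ, ∑ g, f g = f 1 := fun f => by
    rw [Fintype.sum_subsingleton f (1 : G)]
  constructor
  · rintro ⟨V, _, _, _, ρ, hρ, rfl⟩
    have h1 := (orth ρ ρ hρ hρ).2 rfl
    rw [hs, hc, inv_one, Representation.char_one] at h1
    have h2 : Module.finrank ℂ V * Module.finrank ℂ V = 1 := by exact_mod_cast h1
    have h3 : Module.finrank ℂ V = 1 := Nat.eq_one_of_mul_eq_one_left h2
    funext g
    rw [Subsingleton.elim g 1, Representation.char_one, h3, Nat.cast_one]
  · rintro rfl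
    have hch : (Representation.trivial ℂ G ℂ).character = fun _ => 1 := by
      funext g
      rw [Subsingleton.elim g 1, Representation.char_one, Module.finrank_self, Nat.cast_one]
    refine ⟨ℂ, inferInstance, inferInstance, inferInstance, Representation.trivial ℂ G ℂ, ?_, hch⟩
    apply NRM
    rw [hch, hs, hc]
    simp

theorem TIR_empty : TIR_P PEmpty := by
  intro H _ _ ψ
  have : Subsingleton (∀ t, H t) := ⟨fun a b => funext fun t => t.elim⟩
  rw [TIR_triv]
  constructor
  · rintro rfl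
    exact ⟨fun t => t.elim, fun t => t.elim, by funext x; simp⟩
  · rintro ⟨χ, -, rfl⟩
    funext x
    simp

theorem TIR : TIR_stmt := by
  intro T _
  exact Fintype.induction_empty_option (P := fun T _ => TIR_P T)
    (fun α β _ e h => @TIR_equiv α β (Fintype.ofEquiv β e.symm) _ e h) TIR_empty
    (fun α _ h => TIR_option α h) T

end Pool.Agent.DD
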